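import Mathlib
import Pool.Agent.N178.BL.Defs

/-!
# The Albanese kernel
-/

namespace Pool.Agent.N178.EX

open Module Pool.Agent.Y90 Pool.Agent.R915 Pool.Agent.N178.BL

/-- The zero-cycle `z` on `X` belongs to the Albanese kernel (up to torsion): it is homologically
trivial, and all divisors on `X × Y`, as correspondences of degree `dim Y - 1` from `X` to `Y`, map it
to zero. -/
def InAlbaneseKernel (C : ChowTheory) {O X : AV} (z : C.Co O X) : Prop :=
  (∀ ω, C.pb z ω = 0) ∧ ∀ (Y : AV) (W : C.Co X Y) (r : ℤ), (finrank ℚ Y.H : ℤ) = 2 * (r + 1) →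
    C.IsDeg r W → C.o W z = 0

/-- The sum `π` of the projectors for `H^0` and `H^1` of Murre, Deninger and Murre. -/
structure MurreProjector (C : ChowTheory) (O X : AV) where
  π : C.Co X X
  deg : C.IsDeg 0 π
  one : ∀ ω l, l ≤ 1 → C.pb π ω l = ω l
  gt : ∀ ω l, 1 < l → C.pb π ω l = 0
  /-- Murre: `π` is zero on the Albanese kernel -/
  kill : ∀ z : C.Co O X, C.IsDeg 0 z → InAlbaneseKernel C z → C.o π z = 0

end Pool.Agent.N178.EX
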