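import Mathlib
import Pool.Agent.N178.BL.Defs

/-!
# Exterior products of zero-cycles on the powers of an abelian variety
-/

namespace Pool.Agent.N178.EX

noncomputable section

open Module Pool.Agent.Y90 Pool.Agent.R915 Pool.Agent.N178.BL
open Pool.Agent.W546.GHC (typeForms complexify)

/-- The sum of `± c (a (σ 1), …, a (σ N))` over all permutations `σ`, with the signs `sgn(σ)^(n + 1)`. -/
def altSum {A G : Type} [AddCommGroup G] {N : ℕ} (n : ℕ) (c : (Fin N → A) → G) (a : Fin N → A) :
    G :=
  ∑ σ : Equiv.Perm (Fin N), (Equiv.Perm.sign σ ^ (n + 1) : ℤˣ) • c fun k => a (σ k)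

/-- The Hodge number `h^(j, 0)(M)` of the motive `M = (X, p)`: the dimension of the space of the
holomorphic forms of degree `j` in the complexification of the image of `p^*`. -/
def hodge (C : ChowTheory) {X : AV} (p : C.Co X X) (j : ℕ) : ℕ :=
  finrank ℂ ↥(complexify X.per (C.img p j) ⊓ typeForms X.T j j 0)

/-- The power `Q = X^N`, exterior products of zero-cycles and exterior powers of correspondences, and
their known properties. The cycles on `X` are the correspondences from the point `O` to `X`. -/
structure Exterior (C : ChowTheory) (O X : AV) (N n : ℕ) where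
  /-- the power `X^N` -/
  Q : AV
  /-- the projections to the factors -/
  pr : Fin N → Q.H →ₗ[ℚ] X.H
  hom_pr : ∀ k, IsHom Q X (pr k)
  pr_bij : Function.Bijective fun (v : Q.H) (k : Fin N) => pr k v
  /-- the exterior product `a 1 × ⋯ × a N` of cycles on `X` -/
  cyc : (Fin N → C.Co O X) → C.Co O Q
  /-- the sum of the correspondences `± (f × ⋯ × f) ∘ σ` over all permutations `σ` of the factors, with
  the signs `sgn(σ)^(n + 1)` -/
  alt : C.Co X X → C.Co Q Q
  deg_cyc : ∀ a, (∀ k, C.IsDeg 0 (a k)) → C.IsDeg 0 (cyc a)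
  hom_cyc : ∀ a k, (∀ l, C.IsDeg 0 (a l)) → (∀ ω, C.pb (a k) ω = 0) → ∀ ω, C.pb (cyc a) ω = 0
  deg_alt : ∀ f, C.IsDeg 0 f → C.IsDeg 0 (alt f)
  alt_cyc : ∀ f a, C.IsDeg 0 f → C.o (alt f) (cyc a) = altSum n cyc fun k => C.o f (a k)
  /-- Künneth: if the image of `f^*` has no holomorphic forms of degree different from `n`, and the
  dimension of the space `V` of those of degree `n` is less than `N`, then the holomorphic forms in
  the image of `(f × ⋯ × f)^*` are in `V^(⊗ N)`, and the image of `(alt f)^*` has none, since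
  `Λ^N V = 0` -/
  kunneth : ∀ f, C.IsDeg 0 f → (∀ j, j ≠ n → hodge C f j = 0) → hodge C f n < N →
    C.HasConiveau (alt f) 1
  /-- the coefficients are rational -/
  rational : ∀ (z : C.Co O Q) (m : ℕ), 0 < m → m • z = 0 → z = 0

/-- The correspondence `π = X × x`, where `x` is a point of `X`. -/
structure PointProjector (C : ChowTheory) (O X : AV) where
  π : C.Co X X
  deg : C.IsDeg 0 π
  zero : ∀ ω, C.pb π ω 0 = ω 0
  pos : ∀ ω l, l ≠ 0 → C.pb π ω l = 0
  kill : ∀ z : C.Co O X, C.IsDeg 0 z → (∀ ω, C.pb z ω = 0) → C.o π z = 0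

end

end Pool.Agent.N178.EX
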