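import Mathlib
import Pool.Agent.N178.EX.Defs
import Pool.Agent.N178.EX.AlbDefs
import Pool.Agent.N178.GB.Main
import Pool.Agent.N178.HW.Fac

/-!
# Exterior products of zero-cycles: the proofs
-/

set_option linter.unusedSectionVars false

namespace Pool.Agent.N178.EX

noncomputable section

open Module Pool.Agent.Y90 Pool.Agent.R915 Pool.Agent.N178.BL
open Pool.Agent.N178.GB (exists_q kill form_ext)
open Pool.Agent.W546.GHC (typeForms complexify)
open Pool.Agent.N178.HX (GHC)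

variable {C : ChowTheory} {O X : AV} {N n : ℕ} {p q : C.Co X X}

theorem holo_congr {j : ℕ} (h : ∀ ω, C.pb q ω j = C.pb p ω j) : hodge C q j = hodge C p j := by
  have h1 : C.img q j = C.img p j := by
    unfold ChowTheory.img
    simp only [h]
  unfold hodge
  rw [h1]

theorem holo_bot {j : ℕ} (h : ∀ ω, C.pb q ω j = 0) : hodge C q j = 0 := by
  suffices h0 : complexify X.per (C.img q j) ⊓ typeForms X.T j j 0 = ⊥ by
    unfold hodge
    rw [h0]
    exact finrank_bot ℂ _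
  rw [eq_bot_iff]
  rintro φ ⟨hφ, -⟩
  have h1 : C.img q j = ⊥ := by
    rw [eq_bot_iff]
    refine Submodule.span_le.2 ?_
    rintro _ ⟨ω, rfl⟩
    exact h ω
  rw [h1] at hφ
  refine Submodule.span_le.2 ?_ hφ
  rintro ψ ⟨f, hf, hψ⟩
  rw [SetLike.mem_coe, Submodule.mem_bot]
  refine form_ext fun w => ?_
  rw [hψ w, (Submodule.mem_bot ℚ).1 hf, AlternatingMap.zero_apply, AlternatingMap.zero_apply,
    Rat.cast_zero]

theorem deg_o' {Y Z : AV} {f : C.Co X Y} {g : C.Co Y Z} (hf : C.IsDeg 0 f) (hg : C.IsDeg 0 g) :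
    C.IsDeg 0 (C.o g f) := by
  have h := C.deg_o f g hf hg
  rwa [zero_add] at h

/-- **The nilpotence.** -/
theorem nilp' (hG : GHC C.alg X) {e : C.Co X X} (he : C.IsDeg 0 e) (hc : C.HasConiveau e 1) :
    ∃ M : ℕ, ∀ (O : AV) (z : C.Co O X), finrank ℚ O.H = 0 → C.IsDeg 0 z → (∀ ω, C.pb z ω = 0) →
      (fun y : C.Co O X => C.o e y)^[M] z = 0 := by
  obtain ⟨r, hr, h1⟩ := exists_q hG he hc
  have hrd := Fac_deg hr
  obtain ⟨ν, hν⟩ : ∃ ν, ν = e - C.o e r := ⟨_, rfl⟩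
  have hνd : C.IsDeg 0 ν := by
    rw [hν]
    exact C.deg_sub _ _ he (deg_o' hrd he)
  have hν0 : ∀ ω, C.pb ν ω = 0 := by
    intro ω
    have h2 := h1 ω
    rw [hν, pb_sub, C.pb_o, h2, sub_self]
  obtain ⟨M, hM⟩ := C.nilpotent ν hνd hν0
  refine ⟨M, fun O z hO hz h0 => ?_⟩
  have key : ∀ k : ℕ, (fun y : C.Co O X => C.o e y)^[k] z =
      C.o ((fun g : C.Co X X => C.o ν g)^[k] (C.one X)) z ∧
      C.IsDeg 0 ((fun y : C.Co O X => C.o e y)^[k] z) ∧
      ∀ ω, C.pb ((fun y : C.Co O X => C.o e y)^[k] z) ω = 0 := by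
    intro k
    induction k with
    | zero =>
      rw [Function.iterate_zero, Function.iterate_zero, id_eq, id_eq, C.one_o]
      exact ⟨rfl, hz, h0⟩
    | succ k ih =>
      obtain ⟨ih1, ih2, ih3⟩ := ih
      rw [Function.iterate_succ_apply', Function.iterate_succ_apply']
      refine ⟨?_, deg_o' ih2 he, fun ω => ?_⟩
      · rw [← C.assoc, ← ih1, hν]
        have h5 := C.add_o (e - C.o e r) (C.o e r) ((fun y : C.Co O X => C.o e y)^[k] z)
        rw [sub_add_cancel, ← C.assoc _ r e, kill hr hO (by norm_num) ih2 ih3, o_zero,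
          add_zero] at h5
        exact h5
      · rw [C.pb_o, ih3]
  rw [(key M).1, hM, zero_o]

/-- **The main step.** -/
theorem exterior_of (hO : finrank ℚ O.H = 0) (E : Exterior C O X N n) (hG : GHC C.alg E.Q)
    (hq : C.IsDeg 0 q) (h0 : ∀ j, j ≠ n → hodge C q j = 0) (hN : hodge C q n < N)
    (a : Fin N → C.Co O X) (ha : ∀ k, C.IsDeg 0 (a k)) (ha0 : ∀ k ω, C.pb (a k) ω = 0)
    (hqa : ∀ k, C.o q (a k) = a k) : altSum n E.cyc a = 0 := by
  obtain ⟨M, hM⟩ := nilp' hG (E.deg_alt q hq) (E.kunneth q hq h0 hN)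
  obtain ⟨ε, hε⟩ : ∃ ε : Equiv.Perm (Fin N) → ℤˣ, ∀ σ, ε σ = Equiv.Perm.sign σ ^ (n + 1) :=
    ⟨_, fun _ => rfl⟩
  obtain ⟨w, hw⟩ : ∃ w : C.Co O E.Q, w = ∑ σ : Equiv.Perm (Fin N), ε σ • E.cyc (fun k => a (σ k)) :=
    ⟨_, rfl⟩
  have hεm : ∀ σ τ, ε (σ * τ) = ε σ * ε τ := fun σ τ => by
    rw [hε, hε, hε, Equiv.Perm.sign_mul, mul_pow]
  let A : C.Co O E.Q →+ C.Co O E.Q :=
    { toFun := fun y => C.o (E.alt q) y
      map_zero' := o_zero _
      map_add' := fun x y => C.o_add _ _ _ }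
  have hA : ∀ τ : Equiv.Perm (Fin N), A (E.cyc fun k => a (τ k)) = ε τ • w := by
    intro τ
    change C.o (E.alt q) _ = _
    rw [E.alt_cyc _ _ hq]
    simp only [hqa]
    rw [hw, Finset.smul_sum]
    unfold altSum
    refine (Equiv.sum_comp (Equiv.mulLeft τ) _).symm.trans ?_ |>.symm
    refine Finset.sum_congr rfl fun σ _ => ?_
    rw [Equiv.coe_mulLeft, hεm, smul_smul, ← mul_assoc, ← hε]
    have h3 : ε τ * ε τ = 1 := Int.units_mul_self _
    rw [h3, one_mul]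
    rfl
  have hAw : A w = (Fintype.card (Equiv.Perm (Fin N))) • w := by
    rw [hw, map_sum]
    have h2 : ∀ (e : ℤˣ) (f : C.Co O E.Q), A (e • f) = e • A f := by
      intro e f
      rcases Int.units_eq_one_or e with rfl | rfl
      · rw [one_smul, one_smul]
      · rw [Units.neg_smul, Units.neg_smul, one_smul, one_smul, map_neg]
    have h3 : ∀ σ : Equiv.Perm (Fin N), A (ε σ • E.cyc fun k => a (σ k)) = w := by
      intro σ
      rw [h2, hA, smul_smul, Int.units_mul_self, one_smul]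
    rw [Finset.sum_congr rfl fun σ _ => h3 σ, Finset.sum_const, Finset.card_univ, ← hw]
  have hA1 : A (E.cyc a) = w := by
    have h1 := hA 1
    have h2 : ε 1 = 1 := by rw [hε, Equiv.Perm.sign_one, one_pow]
    rw [h2, one_smul] at h1
    exact h1
  have hit : ∀ k : ℕ, (A : C.Co O E.Q → C.Co O E.Q)^[k] w =
      (Fintype.card (Equiv.Perm (Fin N))) ^ k • w := by
    intro k
    induction k with
    | zero => rw [Function.iterate_zero, id_eq, pow_zero, one_smul]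
    | succ k ih =>
      rw [Function.iterate_succ_apply', ih, map_nsmul, hAw, smul_smul, pow_succ]
  have hNpos : 0 < N := by omega
  have h1 := hM O (E.cyc a) hO (E.deg_cyc a ha) (E.hom_cyc a ⟨0, hNpos⟩ ha (ha0 _))
  have h2 : (A : C.Co O E.Q → C.Co O E.Q)^[M] (E.cyc a) = 0 := h1
  have h3 : (A : C.Co O E.Q → C.Co O E.Q)^[M] w = 0 := by
    rw [← hA1, ← Function.iterate_succ_apply, Function.iterate_succ_apply', h2, map_zero]
  rw [hit] at h3
  have h4 := E.rational w _ (pow_pos Fintype.card_pos M) h3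
  rw [← h4, hw]
  unfold altSum
  exact Finset.sum_congr rfl fun σ _ => by rw [hε]

theorem sub_o' {Y Z : AV} (f g : C.Co Y Z) (z : C.Co X Y) : C.o (f - g) z = C.o f z - C.o g z := by
  have h := C.add_o (f - g) g z
  rw [sub_add_cancel] at h
  exact eq_sub_of_add_eq h.symm

/-- **Zero-cycles of degree zero.** -/
theorem exterior (hO : finrank ℚ O.H = 0) (hp : C.IsMotive p) (P : PointProjector C O X)
    (E : Exterior C O X N n) (hG : GHC C.alg E.Q) (hn : 0 < n)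
    (h0 : ∀ j, 0 < j → j ≠ n → hodge C p j = 0) (hN : hodge C p n < N)
    (a : Fin N → C.Co O X) (ha : ∀ k, C.IsDeg 0 (a k)) (ha0 : ∀ k ω, C.pb (a k) ω = 0)
    (hpa : ∀ k, C.o p (a k) = a k) : altSum n E.cyc a = 0 := by
  have hpb : ∀ ω l, C.pb (p - C.o p P.π) ω l = C.pb p ω l - C.pb P.π (C.pb p ω) l := by
    intro ω l
    rw [pb_sub, C.pb_o]
    rfl
  have h1 : ∀ ω, C.pb (p - C.o p P.π) ω 0 = 0 := fun ω => by rw [hpb, P.zero, sub_self]
  have h2 : ∀ l, l ≠ 0 → ∀ ω, C.pb (p - C.o p P.π) ω l = C.pb p ω l := fun l hl ω => by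
    rw [hpb, P.pos _ _ hl, sub_zero]
  refine exterior_of hO E hG (C.deg_sub _ _ hp.1 (deg_o' P.deg hp.1)) (fun j hj => ?_)
    (by rwa [holo_congr (h2 n hn.ne')]) a ha ha0 fun k => ?_
  · rcases Nat.eq_zero_or_pos j with rfl | h
    · exact holo_bot h1
    · rw [holo_congr (h2 j h.ne'), h0 j h hj]
  · rw [sub_o', ← C.assoc, P.kill _ (ha k) (ha0 k), o_zero, sub_zero, hpa]

/-- **Zero-cycles in the Albanese kernel.** -/
theorem exterior_alb (hO : finrank ℚ O.H = 0) (hp : C.IsMotive p) (P : MurreProjector C O X)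
    (E : Exterior C O X N n) (hG : GHC C.alg E.Q) (hn : 1 < n)
    (h0 : ∀ j, 1 < j → j ≠ n → hodge C p j = 0) (hN : hodge C p n < N)
    (a : Fin N → C.Co O X) (ha : ∀ k, C.IsDeg 0 (a k)) (ha0 : ∀ k, InAlbaneseKernel C (a k))
    (hpa : ∀ k, C.o p (a k) = a k) : altSum n E.cyc a = 0 := by
  have hpb : ∀ ω l, C.pb (p - C.o p P.π) ω l = C.pb p ω l - C.pb P.π (C.pb p ω) l := by
    intro ω l
    rw [pb_sub, C.pb_o]
    rfl
  have h1 : ∀ l, l ≤ 1 → ∀ ω, C.pb (p - C.o p P.π) ω l = 0 := fun l hl ω => by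
    rw [hpb, P.one _ _ hl, sub_self]
  have h2 : ∀ l, 1 < l → ∀ ω, C.pb (p - C.o p P.π) ω l = C.pb p ω l := fun l hl ω => by
    rw [hpb, P.gt _ _ hl, sub_zero]
  refine exterior_of hO E hG (C.deg_sub _ _ hp.1 (deg_o' P.deg hp.1)) (fun j hj => ?_)
    (by rwa [holo_congr (h2 n hn)]) a ha (fun k => (ha0 k).1) fun k => ?_
  · rcases le_or_gt j 1 with h | h
    · exact holo_bot (h1 j h)
    · rw [holo_congr (h2 j h), h0 j h hj]
  · rw [sub_o', ← C.assoc, P.kill _ (ha k) (ha0 k), o_zero, sub_zero, hpa]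

/-- The simple factors of a power. -/
theorem factor_pow (E : Exterior C O X N n) {W : AV} (hW : IsFactor W E.Q) : IsFactor W X := by
  obtain ⟨hs, i, h1, h2⟩ := hW
  obtain ⟨k, hk⟩ : ∃ k, (E.pr k).comp i ≠ 0 := by
    by_contra hcon
    push Not at hcon
    obtain ⟨⟨y, hy⟩, -⟩ := id hs
    apply hy
    apply h2
    apply E.pr_bij.1
    funext k
    have h3 := LinearMap.congr_fun (hcon k) y
    change E.pr k (i y) = 0 at h3
    change E.pr k (i y) = E.pr k (i 0)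
    rw [h3, map_zero, map_zero]
  exact ⟨hs, (E.pr k).comp i, Pool.Agent.N178.HW.hom_comp h1 (E.hom_pr k),
    Pool.Agent.N830.HC.inj_of_simple hs (Pool.Agent.N178.HW.hom_comp h1 (E.hom_pr k)) hk⟩

end

end Pool.Agent.N178.EX
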